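import Mathlib
import Pool.Agent.R116.Had

set_option autoImplicit false

/-!
# Hadamard designs with a group of automorphisms with few point orbits
-/

namespace Pool.Agent.Results.MP_3038d1_co.HadamardDesignsFewOrbits

open Filter Topology

/-- The blocks `B i` form a symmetric `(4 n - 1, 2 n - 1, n - 1)` design (a Hadamard design). -/
structure IsHadamardDesign (n : ℕ) (B : Fin (4 * n - 1) → Finset (Fin (4 * n - 1))) : Prop where
  size : ∀ i, (B i).card = 2 * n - 1
  pair : ∀ x y : Fin (4 * n - 1), x ≠ y →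
    (Finset.univ.filter (fun i => x ∈ B i ∧ y ∈ B i)).card = n - 1

/-- The permutation `σ` of the points maps every block to a block. -/
def IsAutomorphism {v : ℕ} (B : Fin v → Finset (Fin v)) (σ : Equiv.Perm (Fin v)) : Prop :=
  ∀ i, ∃ j, (B i).image σ = B j

/-- For every prime divisor `q > t` of `v` some automorphism whose order is a power of `q` fixes an
even number of points. -/
def EvenFixed (t v : ℕ) (B : Fin v → Finset (Fin v)) : Prop :=
  ∀ q : ℕ, q.Prime → t < q → q ∣ v → ∃ (σ : Equiv.Perm (Fin v)) (a : ℕ),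
    IsAutomorphism B σ ∧ orderOf σ = q ^ a ∧
      Even (Finset.univ.filter (fun x : Fin v => σ x = x)).card

/-- `H` has at most `t` orbits on the points, and all point stabilizers have order at most `t`. -/
def HasFewOrbits (t v : ℕ) (H : Subgroup (Equiv.Perm (Fin v))) : Prop :=
  Nat.card (MulAction.orbitRel.Quotient H (Fin v)) ≤ t ∧
    ∀ x : Fin v, Nat.card (MulAction.stabilizer H x) ≤ t

/-- `H` is transitive on the points, and no prime `q > t` divides both `v` and the order of a point
stabilizer. -/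
def TransitiveCoprime (t v : ℕ) (H : Subgroup (Equiv.Perm (Fin v))) : Prop :=
  (∀ x y : Fin v, ∃ h ∈ H, h x = y) ∧
    ∀ q : ℕ, q.Prime → q ∣ v → ∀ x : Fin v, q ∣ Nat.card (MulAction.stabilizer H x) → q ≤ t

/-- There is a symmetric `(4 n - 1, 2 n - 1, n - 1)` design with `EvenFixed t` or with a group of
automorphisms `H` with `HasFewOrbits t` or `TransitiveCoprime t`. -/
def HasSymmetricHadamardDesign (t n : ℕ) : Prop :=
  ∃ B : Fin (4 * n - 1) → Finset (Fin (4 * n - 1)), IsHadamardDesign n B ∧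
    (EvenFixed t (4 * n - 1) B ∨
      ∃ H : Subgroup (Equiv.Perm (Fin (4 * n - 1))), (∀ h ∈ H, IsAutomorphism B h) ∧
        (HasFewOrbits t (4 * n - 1) H ∨ TransitiveCoprime t (4 * n - 1) H))

theorem hasHad {t n : ℕ} (hn : 2 ≤ n) (h : HasSymmetricHadamardDesign t n) :
    Pool.Agent.R116.Had.HasHadE (t * t.factorial) n := by
  obtain ⟨B, hd, h⟩ := h
  have ht : t ≤ t * t.factorial := Nat.le_mul_of_pos_right _ (Nat.factorial_pos t)
  refine ⟨hn, B, hd.size, hd.pair, ?_⟩
  rcases h with h | ⟨H, haut, h | h⟩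
  · refine Pool.Agent.R116.Hall.Ev.mono (s := t) ?_ ht
    intro q hq htq hqv
    obtain ⟨σ, a, h1, h2, h3⟩ := h q hq htq hqv
    exact ⟨σ, a, h1, by rw [← h2]; exact pow_orderOf_eq_one σ, h3⟩
  · exact Pool.Agent.R116.Hall.ev_few (by omega) H haut h.1 h.2
  · exact (Pool.Agent.R116.Hall.ev_trans H haut h.1 h.2).mono ht

/-- Let `t` be given.

(1) For every `ε > 0` there is `C` such that for all `X ≥ 3` at most `C X (log X) ^ (ε - 1)` integers
`2 ≤ n ≤ X` are such that there is a symmetric `(4 n - 1, 2 n - 1, n - 1)` design with `EvenFixed t`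
or with a group of automorphisms with `HasFewOrbits t` or `TransitiveCoprime t`.

(2) For every `j ≥ 1`, among the integers `n ≤ X` with exactly `j` prime factors (counted with
multiplicity; for `j = 1`: among the primes) the proportion of those for which there is such a
design tends to `0` as `X → ∞`. -/
theorem result (t : ℕ) :
    (∀ ε : ℝ, 0 < ε → ∃ C : ℝ, 0 < C ∧ ∀ X : ℕ, 3 ≤ X →
      ({n : ℕ | 2 ≤ n ∧ n ≤ X ∧ HasSymmetricHadamardDesign t n}.ncard : ℝ) ≤
        C * X * (Real.log X) ^ (ε - 1)) ∧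
    ∀ j : ℕ, 1 ≤ j → Tendsto (fun X : ℕ =>
      ({n : ℕ | n ≤ X ∧ n.primeFactorsList.length = j ∧
          HasSymmetricHadamardDesign t n}.ncard : ℝ) /
        ({n : ℕ | n ≤ X ∧ n.primeFactorsList.length = j}.ncard : ℝ)) atTop (𝓝 0) := by
  constructor
  · intro ε hε
    obtain ⟨C, hC, h⟩ := Pool.Agent.R116.Had.count_hadE (t * t.factorial) ε hε
    refine ⟨C, hC, fun X hX => le_trans ?_ (h X hX)⟩
    refine (Nat.cast_le (α := ℝ)).2 (Set.ncard_le_ncard (fun n hn =>
      ⟨hn.2.1, hasHad hn.1 hn.2.2⟩) ((Set.finite_Iic X).subset fun n hn => hn.1))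
  · intro j hj
    refine squeeze_zero (fun X => by positivity) (fun X => ?_)
      (Pool.Agent.R116.Had.density_hadE (t * t.factorial) j hj)
    apply div_le_div_of_nonneg_right _ (Nat.cast_nonneg _)
    refine (Nat.cast_le (α := ℝ)).2 (Set.ncard_le_ncard (fun n hn => ⟨hn.1, hn.2.1, ?_⟩)
      ((Set.finite_Iic X).subset fun n hn => hn.1))
    refine hasHad ?_ hn.2.2
    have h1 := hn.2.1
    rcases Nat.lt_or_ge n 2 with h2 | h2
    · interval_cases n <;> simp at h1 <;> omega
    · exact h2

end Pool.Agent.Results.MP_3038d1_co.HadamardDesignsFewOrbits
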