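import Mathlib
import Pool.Agent.R116.PGCnt

set_option autoImplicit false

/-!
# Symmetric designs with the parameters of projective spaces: counting the orders
-/

namespace Pool.Agent.Results.MP_3038d1_co.ProjectiveSpaceParameters

/-- The blocks `B i` (`i : Fin v`) form a symmetric design on the points `Fin v` with the parameters
of the projective space of dimension `m - 1` over a (possibly non-existent) field of order `n`:
`v = (n ^ m - 1) / (n - 1)`, `k = (n ^ (m - 1) - 1) / (n - 1)`,
`lambda = (n ^ (m - 2) - 1) / (n - 1)`. -/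
structure IsPGDesign (n m v : ℕ) (B : Fin v → Finset (Fin v)) : Prop where
  points : v * (n - 1) = n ^ m - 1
  size : ∀ i, (B i).card * (n - 1) = n ^ (m - 1) - 1
  pair : ∀ x y : Fin v, x ≠ y →
    (Finset.univ.filter (fun i => x ∈ B i ∧ y ∈ B i)).card * (n - 1) = n ^ (m - 2) - 1

/-- The permutation `σ` of the points maps every block to a block. -/
def IsAutomorphism {v : ℕ} (B : Fin v → Finset (Fin v)) (σ : Equiv.Perm (Fin v)) : Prop :=
  ∀ i, ∃ j, (B i).image σ = B j

/-- For every prime divisor `q > t` of `v` some automorphism whose order is a power of `q` fixes an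
even number of points. -/
def EvenFixed (t v : ℕ) (B : Fin v → Finset (Fin v)) : Prop :=
  ∀ q : ℕ, q.Prime → t < q → q ∣ v → ∃ (σ : Equiv.Perm (Fin v)) (a : ℕ),
    IsAutomorphism B σ ∧ orderOf σ = q ^ a ∧
      Even (Finset.univ.filter (fun x : Fin v => σ x = x)).card

/-- `H` has at most `t` orbits on the points, and all point stabilizers have order at most `t`. -/
def HasFewOrbits (t v : ℕ) (H : Subgroup (Equiv.Perm (Fin v))) : Prop :=
  Nat.card (MulAction.orbitRel.Quotient H (Fin v)) ≤ t ∧
    ∀ x : Fin v, Nat.card (MulAction.stabilizer H x) ≤ t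

/-- `H` is transitive on the points, and no prime `q > t` divides both `v` and the order of a point
stabilizer. -/
def TransitiveCoprime (t v : ℕ) (H : Subgroup (Equiv.Perm (Fin v))) : Prop :=
  (∀ x y : Fin v, ∃ h ∈ H, h x = y) ∧
    ∀ q : ℕ, q.Prime → q ∣ v → ∀ x : Fin v, q ∣ Nat.card (MulAction.stabilizer H x) → q ≤ t

/-- There is a symmetric design with the parameters of the projective space of dimension `m - 1` and
order `n` with `EvenFixed t` or with a group of automorphisms `H` with `HasFewOrbits t` or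
`TransitiveCoprime t`. -/
def HasSymmetricPGDesign (t n m : ℕ) : Prop :=
  ∃ (v : ℕ) (B : Fin v → Finset (Fin v)), IsPGDesign n m v B ∧
    (EvenFixed t v B ∨ ∃ H : Subgroup (Equiv.Perm (Fin v)), (∀ h ∈ H, IsAutomorphism B h) ∧
      (HasFewOrbits t v H ∨ TransitiveCoprime t v H))

theorem hasPG {t n m : ℕ} (hn : 2 ≤ n) (hm3 : 3 ≤ m) (h : HasSymmetricPGDesign t n m) :
    Pool.Agent.R116.PG.HasPG (t * t.factorial) n m := by
  obtain ⟨v, B, hd, h⟩ := h
  have hd' : Pool.Agent.R116.PG.PGD n m v B := ⟨hd.points, hd.size, hd.pair⟩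
  obtain ⟨-, -, hv, -⟩ := hd'.facts hn hm3
  have ht : t ≤ t * t.factorial := Nat.le_mul_of_pos_right _ (Nat.factorial_pos t)
  refine ⟨v, B, hd', ?_⟩
  rcases h with h | ⟨H, haut, h | h⟩
  · refine Pool.Agent.R116.Hall.Ev.mono (s := t) ?_ ht
    intro q hq htq hqv
    obtain ⟨σ, a, h1, h2, h3⟩ := h q hq htq hqv
    exact ⟨σ, a, h1, by rw [← h2]; exact pow_orderOf_eq_one σ, h3⟩
  · exact Pool.Agent.R116.Hall.ev_few hv H haut h.1 h.2
  · exact (Pool.Agent.R116.Hall.ev_trans H haut h.1 h.2).mono ht

theorem tst (t : ℕ) : Pool.Agent.R116.PG.Tst (t * t.factorial) (HasSymmetricPGDesign t) :=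
  fun n m hn hm hm3 h => Pool.Agent.R116.PG.tst_pg _ n m hn hm hm3 (hasPG hn hm3 h)

/-- Let `i` be odd (for instance `i = 1`), and let `K` and `t` be given. For every `ε > 0` there is
`C` such that for all `X ≥ 3` at most `C X (log X) ^ (ε - 1)` integers `2 ≤ n ≤ X` are such that, for
some odd `m ≥ 3` whose least prime factor is at most `K`, there is a symmetric design with the
parameters of the projective space of dimension `m - 1` and order `n ^ i` with `EvenFixed t` or with
a group of automorphisms with `HasFewOrbits t` or `TransitiveCoprime t`. (All prime powers `n`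
occur, and their number up to `X` is asymptotic to `X / log X`.) -/
theorem result (i : ℕ) (hi : Odd i) (K t : ℕ) (ε : ℝ) (hε : 0 < ε) :
    ∃ C : ℝ, 0 < C ∧ ∀ X : ℕ, 3 ≤ X →
      ({n : ℕ | 2 ≤ n ∧ n ≤ X ∧
        ∃ m : ℕ, Odd m ∧ 3 ≤ m ∧ m.minFac ≤ K ∧ HasSymmetricPGDesign t (n ^ i) m}.ncard : ℝ) ≤
      C * X * (Real.log X) ^ (ε - 1) :=
  Pool.Agent.R116.PG.cntKT (tst t) hi K ε hε

end Pool.Agent.Results.MP_3038d1_co.ProjectiveSpaceParameters
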